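import Mathlib
import Pool.Agent.H44R2.Stk.Defs

/-!
# Words with a given letter set, split at the largest letter (task T2)
-/

set_option autoImplicit false

namespace Pool.Agent.H409R2.Stk

open Finset
open Pool.Agent.H44R2.Stk

theorem mem_wds (S : Finset ℕ) (l : List ℕ) : l ∈ wds S ↔ l.Nodup ∧ l.toFinset = S := by
  unfold wds
  rw [List.mem_toFinset, List.mem_permutations]
  constructor
  · intro h
    refine ⟨(h.nodup_iff).2 S.nodup_toList, ?_⟩
    rw [List.toFinset_eq_of_perm _ _ h, Finset.toList_toFinset]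
  · rintro ⟨h1, h2⟩
    refine List.perm_of_nodup_nodup_toFinset_eq h1 S.nodup_toList ?_
    rw [h2, Finset.toList_toFinset]

theorem split_mem (S : Finset ℕ) (m : ℕ) (hm : m ∈ S) (L R : List ℕ) :
    L ++ m :: R ∈ wds S ↔ L.toFinset ∈ (S.erase m).powerset ∧ L ∈ wds L.toFinset ∧
      R ∈ wds ((S.erase m) \ L.toFinset) := by
  rw [mem_wds, mem_wds, mem_wds, Finset.mem_powerset]
  have hnd : (L ++ m :: R).Nodup ↔ L.Nodup ∧ R.Nodup ∧ m ∉ R ∧ m ∉ L ∧ ∀ a ∈ L, a ∉ R := by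
    rw [List.nodup_append, List.nodup_cons]
    constructor
    · rintro ⟨h1, ⟨h2, h3⟩, h4⟩
      exact ⟨h1, h3, h2, fun h => h4 m h m List.mem_cons_self rfl,
        fun a ha ha' => h4 a ha a (List.mem_cons_of_mem _ ha') rfl⟩
    · rintro ⟨h1, h2, h3, h4, h5⟩
      refine ⟨h1, ⟨h3, h2⟩, ?_⟩
      intro a ha b hb hab
      rcases List.mem_cons.1 hb with h | h
      · exact h4 (h ▸ hab ▸ ha)
      · exact h5 a ha (hab ▸ h)
  rw [hnd]
  constructor
  · rintro ⟨⟨h1, h2, h3, h4, h5⟩, h6⟩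
    have hS : ∀ a, a ∈ S ↔ a ∈ L ∨ a = m ∨ a ∈ R := by
      intro a
      rw [← h6]
      simp
      tauto
    refine ⟨?_, ⟨h1, rfl⟩, h2, ?_⟩
    · intro a ha
      rw [List.mem_toFinset] at ha
      rw [Finset.mem_erase]
      exact ⟨fun h => h4 (h ▸ ha), (hS a).2 (Or.inl ha)⟩
    · ext a
      rw [List.mem_toFinset, Finset.mem_sdiff, Finset.mem_erase, List.mem_toFinset]
      constructor
      · intro ha
        exact ⟨⟨fun h => h3 (h ▸ ha), (hS a).2 (Or.inr (Or.inr ha))⟩, fun h => h5 a h ha⟩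
      · rintro ⟨⟨k1, k2⟩, k3⟩
        rcases (hS a).1 k2 with h | h | h
        · exact absurd h k3
        · exact absurd h k1
        · exact h
  · rintro ⟨h1, ⟨h2, -⟩, h3, h4⟩
    have hR : ∀ a, a ∈ R ↔ (a ≠ m ∧ a ∈ S) ∧ a ∉ L := by
      intro a
      rw [← List.mem_toFinset, h4, Finset.mem_sdiff, Finset.mem_erase, List.mem_toFinset]
    have hL : ∀ a ∈ L, a ≠ m ∧ a ∈ S := by
      intro a ha
      exact Finset.mem_erase.1 (h1 (List.mem_toFinset.2 ha))
    refine ⟨⟨h2, h3, fun h => ((hR m).1 h).1.1 rfl, fun h => (hL m h).1 rfl,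
      fun a ha ha' => ((hR a).1 ha').2 ha⟩, ?_⟩
    ext a
    simp only [List.toFinset_append, List.toFinset_cons, Finset.mem_union, List.mem_toFinset,
      Finset.mem_insert]
    constructor
    · rintro (h | h | h)
      · exact (hL a h).2
      · exact h ▸ hm
      · exact ((hR a).1 h).1.2
    · intro h
      by_cases k1 : a ∈ L
      · exact Or.inl k1
      · by_cases k2 : a = m
        · exact Or.inr (Or.inl k2)
        · exact Or.inr (Or.inr ((hR a).2 ⟨⟨k2, h⟩, k1⟩))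

theorem sum_wds_split (S : Finset ℕ) (m : ℕ) (hm : m ∈ S) (_hmax : ∀ a ∈ S, a ≤ m)
    (g : List ℕ → ℂ) :
    ∑ π ∈ wds S, g π = ∑ T ∈ (S.erase m).powerset, ∑ L ∈ wds T,
      ∑ R ∈ wds ((S.erase m) \ T), g (L ++ m :: R) := by
  symm
  rw [Finset.sum_sigma', Finset.sum_sigma']
  refine Finset.sum_bij (fun y _ => y.1.2 ++ m :: y.2) ?_ ?_ ?_ ?_
  · rintro ⟨⟨T, L⟩, R⟩ h
    simp only [Finset.mem_sigma] at h
    obtain ⟨⟨h1, h2⟩, h3⟩ := h
    have h4 := ((mem_wds T L).1 h2).2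
    simp only
    rw [split_mem S m hm, h4]
    exact ⟨h1, h2, h3⟩
  · rintro ⟨⟨T, L⟩, R⟩ h ⟨⟨T', L'⟩, R'⟩ h' he
    simp only [Finset.mem_sigma] at h h'
    obtain ⟨⟨h1, h2⟩, h3⟩ := h
    obtain ⟨⟨h1', h2'⟩, h3'⟩ := h'
    have h4 := ((mem_wds T L).1 h2).2
    have h4' := ((mem_wds T' L').1 h2').2
    have n1 : m ∉ L := by
      intro hL
      have h5 : m ∈ T := by rw [← h4]; exact List.mem_toFinset.2 hL
      exact (Finset.mem_erase.1 (Finset.mem_powerset.1 h1 h5)).1 rfl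
    have n2 : m ∉ R := by
      intro hR
      have h5 := ((mem_wds _ R).1 h3).2
      have h6 : m ∈ (S.erase m) \ T := by rw [← h5]; exact List.mem_toFinset.2 hR
      exact (Finset.mem_erase.1 (Finset.mem_sdiff.1 h6).1).1 rfl
    obtain ⟨e1, -, e2⟩ := (List.append_cons_inj_of_notMem n1 n2).1 he
    subst e1 e2
    have e3 : T = T' := by rw [← h4, ← h4']
    subst e3
    rfl
  · intro π hπ
    have h1 := (mem_wds S π).1 hπ
    have h2 : m ∈ π := by
      rw [← List.mem_toFinset, h1.2]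
      exact hm
    obtain ⟨L, R, rfl⟩ := List.append_of_mem h2
    have h3 := (split_mem S m hm L R).1 hπ
    refine ⟨⟨⟨L.toFinset, L⟩, R⟩, ?_, rfl⟩
    simp only [Finset.mem_sigma]
    exact ⟨⟨h3.1, h3.2.1⟩, h3.2.2⟩
  · rintro ⟨⟨T, L⟩, R⟩ _
    rfl

theorem card_wds_range (n : ℕ) : (wds (range n)).card = n.factorial := by
  unfold wds
  rw [List.toFinset_card_of_nodup (List.nodup_permutations _ (Finset.nodup_toList _)),
    List.length_permutations, Finset.length_toList, Finset.card_range]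

end Pool.Agent.H409R2.Stk
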